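import Pool.Agent.MP_670f9a_nt.H13.Spec2

/-!
Landau's inequality in two variables, and invariance of the two-variable Mahler measure under
monomial substitutions.
-/

namespace Pool.Agent.MP_670f9a_nt.H44

open Pool.Agent.MP_670f9a_nt.NP Polynomial Real Finset

/-- Rotation invariance of the mean over the unit circle. -/
theorem avg_rot (g : ℂ → ℝ) (c : ℂ) (hc : ‖c‖ = 1) :
    circleAverage (fun u => g (u * c)) 0 1 = circleAverage g 0 1 := by
  rw [circleAverage_eq_integral_add (f := g) (Complex.arg c), circleAverage_def]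
  congr 1
  refine intervalIntegral.integral_congr fun θ _ => ?_
  have h1 : Complex.exp (Complex.arg c * Complex.I) = c := by
    have := Complex.norm_mul_exp_arg_mul_I c
    rwa [hc, Complex.ofReal_one, one_mul] at this
  simp only [circleMap, zero_add, Complex.ofReal_one, one_mul]
  congr 1
  push_cast
  rw [add_mul, Complex.exp_add, h1]

/-- Invariance of the mean over the unit circle under a power map. -/
theorem avg_pow (g : ℂ → ℝ) (hg : CircleIntegrable g 0 1) (q : ℕ) (hq : 1 ≤ q) :
    circleAverage (fun v => g (v ^ q)) 0 1 = circleAverage g 0 1 := by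
  have hq0 : (q : ℝ) ≠ 0 := by positivity
  rw [circleAverage_def, circleAverage_def]
  congr 1
  have hper : Function.Periodic (fun θ : ℝ => g (circleMap 0 1 θ)) (2 * π) := fun x => by
    simp [periodic_circleMap 0 1 x]
  have h1 : ∀ θ : ℝ, g (circleMap 0 1 θ ^ q) = (fun θ : ℝ => g (circleMap 0 1 θ)) (q * θ) := by
    intro θ
    simp only [circleMap, zero_add, Complex.ofReal_one, one_mul]
    congr 1
    rw [← Complex.exp_nat_mul]
    push_cast
    ring_nf
  simp_rw [h1]
  rw [intervalIntegral.integral_comp_mul_left (fun θ : ℝ => g (circleMap 0 1 θ)) hq0]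
  have h2 := hper.intervalIntegral_add_zsmul_eq (q : ℤ) 0
    (hper.intervalIntegrable₀ (by positivity) hg)
  simp only [zero_add, zsmul_eq_mul, Int.cast_natCast] at h2
  rw [mul_zero, h2, smul_eq_mul, ← mul_assoc, inv_mul_cancel₀ hq0, one_mul]

theorem sInv (h : SFub) : SInv := by
  intro H G q₁ q₂ hH hG hq hGH
  obtain ⟨-, hPH, hH', -⟩ := h H hH
  obtain ⟨-, -, hG', -⟩ := h G hG
  rw [← hH', ← hG', ← avg_pow (Psi H) hPH q₂ hq]
  refine circleAverage_congr_sphere fun v hv => ?_
  have hv1 : ‖v‖ = 1 := by simpa using hv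
  have hc : ‖v ^ q₁‖ = 1 := by rw [norm_zpow, hv1, one_zpow]
  show Psi G v = Psi H (v ^ q₂)
  unfold Psi
  rw [← avg_rot (fun u => log ‖H.evalEval u (v ^ q₂)‖) (v ^ q₁) hc]
  refine circleAverage_congr_sphere fun u hu => ?_
  have hu1 : ‖u‖ = 1 := by simpa using hu
  show log ‖G.evalEval u v‖ = log ‖H.evalEval (u * v ^ q₁) (v ^ q₂)‖
  rw [hGH u v hu1 hv1]

/-- Landau's inequality on a slice. -/
theorem phi_le (H : ℂ[X][X]) (u : ℂ) (hu : H.leadingCoeff.eval u ≠ 0) :
    exp (2 * Phi H u) ≤ ∑ j ∈ H.support, ‖(H.coeff j).eval u‖ ^ 2 := by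
  set p : ℂ[X] := H.map (evalRingHom u) with hp
  have hc : ∀ j, p.coeff j = (H.coeff j).eval u := fun j => by simp [hp]
  have hp0 : p ≠ 0 := by
    intro h0
    apply hu
    have := hc H.natDegree
    rw [h0, coeff_zero] at this
    exact this.symm
  have h1 : Phi H u = p.logMahlerMeasure := by
    unfold Phi
    rw [logMahlerMeasure_def]
    simp only [hp, map_evalRingHom_eval]
  have h2 := p.mahlerMeasure_le_sqrt_sum_sq_norm_coeff
  have h3 := mahlerMeasure_pos_of_ne_zero hp0
  have h4 : exp (2 * Phi H u) = p.mahlerMeasure ^ 2 := by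
    rw [h1, logMahlerMeasure_eq_log_MahlerMeasure, two_mul, exp_add, exp_log h3, sq]
  have h5 : ∑ i ∈ p.support, ‖p.coeff i‖ ^ 2 ≤ ∑ j ∈ H.support, ‖(H.coeff j).eval u‖ ^ 2 := by
    simp_rw [hc]
    exact Finset.sum_le_sum_of_subset_of_nonneg (support_map_subset _ _)
      fun _ _ _ => by positivity
  rw [h4]
  refine le_trans ?_ h5
  calc p.mahlerMeasure ^ 2 ≤ √(∑ i ∈ p.support, ‖p.coeff i‖ ^ 2) ^ 2 := by gcongr
    _ = _ := sq_sqrt (Finset.sum_nonneg fun _ _ => by positivity)

theorem sLan (h : SFub) : SLan := by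
  intro H hH
  obtain ⟨hP, -, -, -⟩ := h H hH
  set S := ∑ j ∈ H.support, ∑ i ∈ (H.coeff j).support, ‖(H.coeff j).coeff i‖ ^ 2 with hS
  have hlc : H.leadingCoeff ≠ 0 := leadingCoeff_ne_zero.2 hH
  have hS0 : 0 < S := by
    refine Finset.sum_pos' (fun _ _ => Finset.sum_nonneg fun _ _ => by positivity)
      ⟨H.natDegree, by simp [hH], ?_⟩
    refine Finset.sum_pos' (fun _ _ => by positivity)
      ⟨H.leadingCoeff.natDegree, by simpa using hH, ?_⟩
    have : H.leadingCoeff.leadingCoeff ≠ 0 := leadingCoeff_ne_zero.2 hlc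
    have h2 : (H.coeff H.natDegree).coeff H.leadingCoeff.natDegree ≠ 0 := this
    positivity
  set s : ℂ → ℝ := fun u => ∑ j ∈ H.support, ‖(H.coeff j).eval u‖ ^ 2 with hs
  have hsc : Continuous s := by
    rw [hs]; fun_prop
  have hsm : circleAverage s 0 1 = S := by
    rw [hs, circleAverage_fun_sum, hS]
    · exact Finset.sum_congr rfl fun j _ => (sum_sq_norm_coeff_eq_circleAverage _).symm
    · intro j _
      exact (by fun_prop : Continuous fun u : ℂ => ‖(H.coeff j).eval u‖ ^ 2).continuousOn.circleIntegrable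
        zero_le_one
  have hpt : ∀ u, H.leadingCoeff.eval u ≠ 0 → 2 * Phi H u ≤ (log S - 1) + S⁻¹ * s u := by
    intro u hu
    have h1 := phi_le H u hu
    have h2 : 0 < s u := lt_of_lt_of_le (exp_pos _) h1
    have h3 : 2 * Phi H u ≤ log (s u) := (le_log_iff_exp_le h2).2 h1
    have h4 := Real.log_le_sub_one_of_pos (div_pos h2 hS0)
    rw [log_div h2.ne' hS0.ne', div_eq_inv_mul] at h4
    linarith
  have hsi : CircleIntegrable s 0 1 := hsc.continuousOn.circleIntegrable zero_le_one
  have hR : circleAverage (fun u => (log S - 1) + S⁻¹ * s u) 0 1 = log S := by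
    rw [circleAverage_fun_add (circleIntegrable_const _ _ _)
      ((by fun_prop : Continuous fun u => S⁻¹ * s u).continuousOn.circleIntegrable zero_le_one),
      circleAverage_const]
    have := circleAverage_fun_smul (a := S⁻¹) (f := s) (c := 0) (R := 1)
    simp only [smul_eq_mul] at this
    rw [this, hsm, inv_mul_cancel₀ hS0.ne']
    ring
  have hL : circleAverage (fun u => 2 * Phi H u) 0 1 = 2 * m2 H := by
    have := circleAverage_fun_smul (a := (2 : ℝ)) (f := Phi H) (c := 0) (R := 1)
    simpa only [smul_eq_mul, m2] using this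
  have hle : 2 * m2 H ≤ log S := by
    rw [← hL, ← hR, circleAverage_def, circleAverage_def, smul_eq_mul, smul_eq_mul]
    refine mul_le_mul_of_nonneg_left ?_ (by positivity)
    refine intervalIntegral.integral_mono_ae (by positivity) (hP.const_mul (2 : ℝ))
      ((by fun_prop : Continuous fun u => (log S - 1) + S⁻¹ * s u).continuousOn.circleIntegrable
        zero_le_one) ?_
    have hcount : (circleMap 0 1 ⁻¹' (H.leadingCoeff.roots.toFinset : Set ℂ)).Countable :=
      (Finset.countable_toSet _).preimage_circleMap 0 one_ne_zero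
    have hae := hcount.ae_notMem (MeasureTheory.volume : MeasureTheory.Measure ℝ)
    filter_upwards [hae] with θ hθ
    refine hpt _ fun h0 => hθ ?_
    simp [hlc, h0]
  exact (le_log_iff_exp_le hS0).1 hle

end Pool.Agent.MP_670f9a_nt.H44
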