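import Pool.Agent.MP_670f9a_nt.H13.Spec

/-!
Transfer of a bound for the inverse roots through iterated Graeffe transforms.
-/

namespace Pool.Agent.MP_670f9a_nt.H44

open Polynomial Pool.Agent.MP_670f9a_nt.H13

theorem iter (h1 : SGr) (G : ℤ[X][X]) (L d : ℕ) (hW : Wt L d G) (h : ℕ) :
    ∃ H : ℤ[X][X], Wt (2 ^ h * L) d H ∧
      ∀ x s, G.map (ev x) = lin s → H.map (ev x) = lin (s.map fun w => w ^ 2 ^ h) := by
  induction h with
  | zero => exact ⟨G, by simpa using hW, fun x s e => by simpa using e⟩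
  | succ n ih =>
    obtain ⟨H, a, b⟩ := ih
    refine ⟨gr H, ?_, fun x s e => ?_⟩
    · rw [pow_succ', mul_assoc]
      exact h1.2.2.2.1 _ _ _ a
    · rw [h1.2.2.2.2.2.1 _ _ _ (b x s e), Multiset.map_map]
      simp only [Function.comp_def, ← pow_mul, ← pow_succ]

theorem ev_eq (a : ℂ) (c : ℤ[X]) : (c.map (Int.castRingHom ℂ)).eval a = ev a c := by
  rw [eval_map]
  rfl

theorem sroot (h1 : SGr) (h2 : SLin) : SRoot := by
  intro G L d h S Z ρ Λ x hL hd h0 hdeg hW hρ hS hZ hf
  have hΛ : 1 ≤ Λ := by simpa using hf 1 1 (by simp) (by simp)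
  refine ⟨hΛ, fun s hs hc w hw => ?_⟩
  obtain ⟨H, hH, hm⟩ := iter h1 G L d hW h
  set k := 2 ^ h with hk
  have k0 : 0 < k := by positivity
  have S0 : 0 < S := lt_of_lt_of_le (by positivity) hS
  have ρ0 : 0 < ρ := by linarith
  have lΛ : 0 ≤ Real.log Λ := Real.log_nonneg hΛ
  have dp : (0 : ℝ) < d := by exact_mod_cast hd
  have Sp : (0 : ℝ) < S := by exact_mod_cast S0
  have kp : (0 : ℝ) < k := by exact_mod_cast k0
  have hb : ∀ a ∈ Z, ∀ j, ‖ev a (H.coeff j)‖ ≤ (d * ρ ^ k) ^ j := fun a ha j => by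
    obtain ⟨t, ht, e⟩ := h2.1 (G.map (ev a)) d (by simp [h0]) (natDegree_map_le.trans hdeg)
    have := h2.2.2.2.1 (t.map fun w => w ^ k) (ρ ^ k) j (by positivity) fun u hu => by
      obtain ⟨v, hv, rfl⟩ := Multiset.mem_map.1 hu
      rw [norm_pow]
      refine pow_le_pow_left₀ (norm_nonneg _) ?_ _
      by_cases v0 : v = 0
      · simp [v0, ρ0.le]
      · have := hZ a ha v⁻¹ (by rw [e, h2.2.2.1]; exact ⟨v, hv, mul_inv_cancel₀ v0⟩)
        rwa [norm_inv, ← div_eq_mul_inv, one_le_div (norm_pos_iff.2 v0)] at this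
    rwa [← hm a t e, coeff_map, Multiset.card_map, ht] at this
  set μ := Real.exp (k * (2 * L / (S * d) * Real.log Λ)) with hμ
  have μ0 : 0 < μ := Real.exp_pos _
  have key := h2.2.2.2.2 (s.map fun w => w ^ k) (d * ρ ^ k * μ) (by positivity)
    (fun j j1 jd => by
      rw [Multiset.card_map, hc] at jd
      rw [← hm x s hs, coeff_map]
      have p0 : 0 < k * L * j := by positivity
      have p1 : k * L * j ≤ S * d := Nat.mul_le_mul hS jd
      set l := S * d / (k * L * j) with hl
      have l1 : 1 ≤ l := Nat.div_pos p1 p0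
      have l2 : l * (k * L * j) ≤ S * d := Nat.div_mul_le_self _ _
      have l3 : S * d ≤ 2 * l * (k * L * j) := by
        have := Nat.lt_mul_div_succ (S * d) p0
        nlinarith
      have hdg : (((H.coeff j).map (Int.castRingHom ℂ)) ^ l).natDegree ≤ S := by
        refine natDegree_pow_le.trans ((Nat.mul_le_mul_left _ natDegree_map_le).trans ?_)
        refine Nat.le_of_mul_le_mul_right ?_ hd
        calc l * (H.coeff j).natDegree * d = l * (d * (H.coeff j).natDegree) := by ring
          _ ≤ l * (k * L * j) := Nat.mul_le_mul_left _ (hH j)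
          _ ≤ S * d := l2
      have := hf _ (((d * ρ ^ k) ^ j) ^ l) hdg fun a ha => by
        rw [eval_pow, ev_eq, norm_pow]
        exact pow_le_pow_left₀ (norm_nonneg _) (hb a ha j) _
      rw [eval_pow, ev_eq, norm_pow] at this
      refine le_of_pow_le_pow_left₀ (by omega : l ≠ 0) (by positivity) (this.trans ?_)
      rw [mul_pow _ μ, mul_pow _ (μ ^ j)]
      refine mul_le_mul_of_nonneg_left ?_ (by positivity)
      rw [← pow_mul, hμ, ← Real.exp_nat_mul]
      refine (Real.exp_log (by linarith)).symm.le.trans (Real.exp_le_exp.2 ?_)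
      have l4 : (S : ℝ) * d ≤ 2 * l * (k * L * j) := by exact_mod_cast l3
      have : ((j * l : ℕ) : ℝ) * (k * (2 * L / (S * d) * Real.log Λ)) =
          2 * l * (k * L * j) / (S * d) * Real.log Λ := by
        push_cast
        ring
      rw [this]
      exact le_mul_of_one_le_left lΛ ((one_le_div (by positivity)).2 l4))
    (w ^ k) (Multiset.mem_map_of_mem _ hw)
  refine le_of_pow_le_pow_left₀ k0.ne' (Real.exp_pos _).le ?_
  rw [← norm_pow, ← Real.exp_nat_mul]
  refine key.trans (le_of_eq ?_)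
  have e2 : (2 : ℝ) ^ h = k := by rw [hk]; push_cast; rfl
  rw [e2, mul_add, mul_add, Real.exp_add, Real.exp_add, mul_div_cancel₀ _ kp.ne',
    Real.exp_log (by positivity), Real.exp_nat_mul, Real.exp_log ρ0, ← hμ]
  ring

end Pool.Agent.MP_670f9a_nt.H44
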